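import Pool.Agent.Y187.WQ.Stm

/-!
# Project WQ, part FAITH: normal expectations of irreducible inclusions are faithful (helper801)
-/

set_option autoImplicit false

open scoped ComplexOrder InnerProductSpace
open Finset Filter

noncomputable section

namespace Pool.Agent.Y801.WQ.Faith

open Pool.Agent.Y187.WQ

variable {H : Type} [NormedAddCommGroup H] [InnerProductSpace ℂ H] [CompleteSpace H]

/-- the projection onto a closed subspace that is invariant under `T` and `T*` commutes with
`T` -/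
theorem proj_comm (L : Submodule ℂ H) [L.HasOrthogonalProjection] (T : H →L[ℂ] H)
    (h1 : ∀ x ∈ L, T x ∈ L) (h2 : ∀ x ∈ L, (star T) x ∈ L) :
    L.starProjection * T = T * L.starProjection := by
  ext x
  simp only [mul_apply_eq_comp]
  apply Submodule.eq_starProjection_of_mem_of_inner_eq_zero
  · exact h1 _ (Submodule.starProjection_apply_mem L x)
  · intro v hv
    have h3 : T x - T (L.starProjection x) = T (x - L.starProjection x) := by
      rw [map_sub]
    rw [h3]
    have h4 : ⟪T (x - L.starProjection x), v⟫_ℂ = ⟪x - L.starProjection x, (star T) v⟫_ℂ := by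
      rw [ContinuousLinearMap.star_eq_adjoint, ContinuousLinearMap.adjoint_inner_right]
    rw [h4]
    exact Submodule.starProjection_inner_eq_zero x _ (h2 v hv)

section inv

variable (b : H →L[ℂ] H) (k : ℝ)

/-- the resolvent -/
def R : H →L[ℂ] H := cfc (fun x : ℝ => (1 + k * x)⁻¹) b

variable {b k}

theorem den_pos (hb : 0 ≤ b) (hk : 0 ≤ k) {x : ℝ} (hx : x ∈ spectrum ℝ b) : 1 ≤ 1 + k * x := by
  have h1 : 0 ≤ x := spectrum_nonneg_of_nonneg hb hx
  have := mul_nonneg hk h1
  linarith

theorem cont1 (hb : 0 ≤ b) (hk : 0 ≤ k) :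
    ContinuousOn (fun x : ℝ => (1 + k * x)⁻¹) (spectrum ℝ b) := by
  apply ContinuousOn.inv₀
  · fun_prop
  · intro x hx
    have := den_pos hb hk hx
    linarith

theorem R_inv (hb : 0 ≤ b) (hk : 0 ≤ k) : (1 + k • b) * R b k = 1 := by
  have hsa : IsSelfAdjoint b := IsSelfAdjoint.of_nonneg hb
  have h1 : cfc (fun x : ℝ => 1 + k * x) b = 1 + k • b := by
    rw [cfc_const_add (1 : ℝ) (fun x => k * x) b, cfc_const_mul_id k b, map_one]
  rw [R, ← h1, ← cfc_mul (fun x : ℝ => 1 + k * x) (fun x : ℝ => (1 + k * x)⁻¹) b (by fun_prop)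
    (cont1 hb hk)]
  rw [show (1 : H →L[ℂ] H) = cfc (fun _ : ℝ => (1 : ℝ)) b from (cfc_const_one ℝ b).symm]
  apply cfc_congr
  intro x hx
  have := den_pos hb hk hx
  exact mul_inv_cancel₀ (by linarith)

theorem R_nonneg (hb : 0 ≤ b) (hk : 0 ≤ k) : 0 ≤ R b k := by
  apply cfc_nonneg
  intro x hx
  have := den_pos hb hk hx
  positivity

theorem R_le_one (hb : 0 ≤ b) (hk : 0 ≤ k) : R b k ≤ 1 := by
  apply cfc_le_one
  intro x hx
  have := den_pos hb hk hx
  exact inv_le_one_of_one_le₀ this

theorem R_norm (hb : 0 ≤ b) (hk : 0 ≤ k) : ‖R b k‖ ≤ 1 :=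
  (CStarAlgebra.norm_le_one_iff_of_nonneg _ (R_nonneg hb hk)).mpr (R_le_one hb hk)

theorem one_sub_R_le (hb : 0 ≤ b) (hk : 0 ≤ k) : 1 - R b k ≤ k • b := by
  have hsa : IsSelfAdjoint b := IsSelfAdjoint.of_nonneg hb
  have h1 : cfc (fun x : ℝ => 1 - (1 + k * x)⁻¹) b = 1 - R b k := by
    rw [cfc_sub (fun _ : ℝ => (1 : ℝ)) (fun x : ℝ => (1 + k * x)⁻¹) b (by fun_prop)
      (cont1 hb hk), cfc_const_one ℝ b, R]
  have h2 : cfc (fun x : ℝ => k * x) b = k • b := cfc_const_mul_id k b
  rw [← h1, ← h2]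
  apply cfc_mono _ _ (by fun_prop)
  · intro x hx
    have h3 := den_pos hb hk hx
    have h4 : 0 < 1 + k * x := by linarith
    have h5 : 1 - (1 + k * x)⁻¹ = (k * x) / (1 + k * x) := by
      field_simp
      ring
    rw [h5]
    have h6 : 0 ≤ k * x := by linarith
    exact div_le_self h6 h3
  · exact continuousOn_const.sub (cont1 hb hk)

theorem R_mem (M : VonNeumannAlgebra H) (hb : 0 ≤ b) (hbM : b ∈ M) : R b k ∈ M := by
  have hsa : IsSelfAdjoint b := IsSelfAdjoint.of_nonneg hb
  rw [← VonNeumannAlgebra.commutant_commutant M, VonNeumannAlgebra.mem_commutant_iff]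
  intro g hg
  have h1 : Commute b g := (VonNeumannAlgebra.mem_commutant_iff.mp hg) b hbM
  exact (hsa.commute_cfc h1 _).symm.eq

end inv

/-- the sum of the conjugates -/
def bF (N : VonNeumannAlgebra H) (w : H →L[ℂ] H) (F : Finset N) : H →L[ℂ] H :=
  ∑ y ∈ F, (y : H →L[ℂ] H) * (star w * w) * star (y : H →L[ℂ] H)

theorem term_eq (w y : H →L[ℂ] H) :
    y * (star w * w) * star y = star (w * star y) * (w * star y) := by
  rw [star_mul, star_star]
  simp only [mul_assoc]

theorem bF_nonneg (N : VonNeumannAlgebra H) (w : H →L[ℂ] H) (F : Finset N) : 0 ≤ bF N w F := by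
  unfold bF
  apply Finset.sum_nonneg
  intro y _
  rw [term_eq]
  exact star_mul_self_nonneg _

theorem bF_inner (N : VonNeumannAlgebra H) (w : H →L[ℂ] H) (F : Finset N) (θ : H) :
    (⟪bF N w F θ, θ⟫_ℂ).re = ∑ y ∈ F, ‖w ((star (y : H →L[ℂ] H)) θ)‖ ^ 2 := by
  unfold bF
  rw [_root_.sum_apply, sum_inner, Complex.re_sum]
  apply Finset.sum_congr rfl
  intro y _
  rw [term_eq, mul_apply_eq_comp, ContinuousLinearMap.star_eq_adjoint (w * _),
    ContinuousLinearMap.adjoint_inner_left, mul_apply_eq_comp]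
  rw [inner_self_eq_norm_sq_to_K]
  norm_cast

/-- the main estimate -/
theorem est (N : VonNeumannAlgebra H) (w : H →L[ℂ] H) (F : Finset N) (y : N) (hy : y ∈ F)
    (k : ℝ) (hk : 0 < k) (ξ : H) :
    ‖R (bF N w F) k ((y : H →L[ℂ] H) ((star w) (w ξ)))‖ ^ 2 ≤ ‖w ξ‖ ^ 2 / (4 * k) := by
  have hb := bF_nonneg N w F
  set ζ := (y : H →L[ℂ] H) ((star w) (w ξ)) with hζ
  set θ := R (bF N w F) k ζ with hθ
  have h1 : ζ = θ + k • (bF N w F θ) := by
    have h2 := R_inv hb hk.le
    have h3 : ((1 + k • bF N w F) * R (bF N w F) k) ζ = ζ := by rw [h2]; rfl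
    rw [mul_apply_eq_comp, ← hθ] at h3
    rw [← h3]
    rfl
  have h2 : (⟪ζ, θ⟫_ℂ).re = ‖θ‖ ^ 2 + k * (⟪bF N w F θ, θ⟫_ℂ).re := by
    nth_rewrite 1 [h1]
    rw [inner_add_left, Complex.add_re, inner_self_eq_norm_sq_to_K]
    congr 1
    · norm_cast
    · have : k • (bF N w F θ) = ((k : ℝ) : ℂ) • (bF N w F θ) := by
        rw [Complex.coe_smul]
      rw [this, inner_smul_left, Complex.conj_ofReal, Complex.re_ofReal_mul]
  have h3 : ⟪ζ, θ⟫_ℂ = ⟪w ξ, w ((star (y : H →L[ℂ] H)) θ)⟫_ℂ := by
    rw [hζ, ContinuousLinearMap.star_eq_adjoint, ContinuousLinearMap.star_eq_adjoint,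
      ← ContinuousLinearMap.adjoint_inner_right, ContinuousLinearMap.adjoint_inner_left]
  set s := ‖w ((star (y : H →L[ℂ] H)) θ)‖ with hs
  have h4 : s ^ 2 ≤ (⟪bF N w F θ, θ⟫_ℂ).re := by
    rw [bF_inner]
    exact Finset.single_le_sum (f := fun y : N => ‖w ((star (y : H →L[ℂ] H)) θ)‖ ^ 2)
      (fun i _ => sq_nonneg _) hy
  have h5 : (⟪ζ, θ⟫_ℂ).re ≤ ‖w ξ‖ * s := by
    rw [h3]
    exact (Complex.re_le_norm _).trans (norm_inner_le_norm _ _)
  have h6 : ‖θ‖ ^ 2 + k * s ^ 2 ≤ ‖w ξ‖ * s := by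
    have := mul_le_mul_of_nonneg_left h4 hk.le
    linarith
  rw [le_div_iff₀ (by positivity)]
  nlinarith [sq_nonneg (‖w ξ‖ - 2 * k * s)]

theorem main (N M : VonNeumannAlgebra H) (E : (H →L[ℂ] H) → (H →L[ℂ] H)) (hE : IsCE N M E)
    (hirr : ∀ z ∈ M, (∀ y ∈ N, z * y = y * z) → ∃ c : ℂ, z = c • (1 : H →L[ℂ] H))
    (w : H →L[ℂ] H) (hwM : w ∈ M) (hw : E (star w * w) = 0) : w = 0 := by
  classical
  by_contra hw0
  have haM : star w * w ∈ M := mul_mem (star_mem hwM) hwM
  -- the annihilator
  let L : Submodule ℂ H :=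
    { carrier := {θ | ∀ y ∈ N, w (y θ) = 0}
      add_mem' := by
        intro a b ha hb y hy
        rw [map_add, map_add, ha y hy, hb y hy, add_zero]
      zero_mem' := by
        intro y _
        rw [map_zero, map_zero]
      smul_mem' := by
        intro c a ha y hy
        rw [map_smul, map_smul, ha y hy, smul_zero] }
  have hLmem : ∀ θ, θ ∈ L ↔ ∀ y ∈ N, w (y θ) = 0 := fun θ => Iff.rfl
  have hLc : IsClosed (L : Set H) := by
    have : (L : Set H) = ⋂ y ∈ N, {θ | w (y θ) = 0} := by
      ext θ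
      simp only [SetLike.mem_coe, hLmem, Set.mem_iInter]
      rfl
    rw [this]
    apply isClosed_biInter
    intro y _
    exact isClosed_eq (w.continuous.comp y.continuous) continuous_const
  have : CompleteSpace L := hLc.completeSpace_coe
  have hNinv : ∀ y ∈ N, ∀ x ∈ L, y x ∈ L := by
    intro y hy x hx z hz
    have := hx (z * y) (mul_mem hz hy)
    simpa using this
  have hMinv : ∀ T ∈ M.commutant, ∀ x ∈ L, T x ∈ L := by
    intro T hT x hx y hy
    rw [VonNeumannAlgebra.mem_commutant_iff] at hT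
    have h1 := hT (w * y) (mul_mem hwM (hE.sub y hy))
    have h2 : w (y (T x)) = T (w (y x)) := by
      have := congrArg (fun A : H →L[ℂ] H => A x) h1
      simpa using this
    rw [h2, hx y hy, map_zero]
  have hPM : L.starProjection ∈ M := by
    rw [← VonNeumannAlgebra.commutant_commutant M, VonNeumannAlgebra.mem_commutant_iff]
    intro T hT
    exact (proj_comm L T (hMinv T hT) (hMinv _ (star_mem hT))).symm
  obtain ⟨c, hc⟩ := hirr _ hPM fun y hy => proj_comm L y (hNinv y hy) (hNinv _ (star_mem hy))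
  have hLbot : L = ⊥ := by
    rw [eq_bot_iff]
    intro θ hθ
    by_contra hθ0
    have h1 : L.starProjection θ = θ := (Submodule.starProjection_eq_self_iff).mpr hθ
    rw [hc] at h1
    have h2 : c • θ = θ := by simpa using h1
    have hc1 : c = 1 := by
      have hθne : θ ≠ 0 := by simpa using hθ0
      have : (c - 1) • θ = 0 := by rw [sub_smul, h2, one_smul, sub_self]
      rcases smul_eq_zero.mp this with h | h
      · exact sub_eq_zero.mp h
      · exact absurd h hθne
    rw [hc1, one_smul] at hc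
    apply hw0
    ext x
    have h3 : x ∈ L := by
      rw [← Submodule.starProjection_eq_self_iff, hc]
      rfl
    have := h3 1 (one_mem N)
    simpa using this
  -- the net
  let ι := Finset N × ℕ
  let l : Filter ι := atTop
  let B : ι → (H →L[ℂ] H) := fun i => bF N w i.1
  let kk : ι → ℝ := fun i => (i.2 : ℝ) + 1
  have hkk : ∀ i, 0 < kk i := fun i => by positivity
  have hB : ∀ i, 0 ≤ B i := fun i => bF_nonneg N w i.1
  have hBM : ∀ i, B i ∈ M := by
    intro i
    apply sum_mem
    intro y _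
    exact mul_mem (mul_mem (hE.sub _ y.2) haM) (star_mem (hE.sub _ y.2))
  -- convergence to zero
  let V : Submodule ℂ H :=
    { carrier := {θ | Tendsto (fun i => R (B i) (kk i) θ) l (nhds 0)}
      add_mem' := by
        intro a b ha hb
        have := Tendsto.add ha hb
        simpa using this
      zero_mem' := by
        simp only [Set.mem_ofPred_eq, map_zero]
        exact tendsto_const_nhds
      smul_mem' := by
        intro c a ha
        have := Tendsto.const_smul ha c
        simpa using this }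
  have hVmem : ∀ θ, θ ∈ V ↔ Tendsto (fun i => R (B i) (kk i) θ) l (nhds 0) := fun θ => Iff.rfl
  have hVc : IsClosed (V : Set H) := by
    rw [← isSeqClosed_iff_isClosed]
    intro x θ hx hxθ
    rw [SetLike.mem_coe, hVmem, Metric.tendsto_nhds]
    intro ε hε
    rw [Metric.tendsto_atTop] at hxθ
    obtain ⟨n, hn⟩ := hxθ (ε / 2) (by positivity)
    have h1 := hn n le_rfl
    have h2 := (Metric.tendsto_nhds.mp ((hVmem _).mp (hx n))) (ε / 2) (by positivity)
    filter_upwards [h2] with i hi
    rw [dist_zero_right] at hi ⊢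
    have h3 : R (B i) (kk i) θ = R (B i) (kk i) (x n) - R (B i) (kk i) (x n - θ) := by
      rw [map_sub]
      abel
    have h4 : ‖R (B i) (kk i) (x n - θ)‖ ≤ ‖x n - θ‖ := by
      calc ‖R (B i) (kk i) (x n - θ)‖ ≤ ‖R (B i) (kk i)‖ * ‖x n - θ‖ :=
            ContinuousLinearMap.le_opNorm _ _
        _ ≤ 1 * ‖x n - θ‖ :=
            mul_le_mul_of_nonneg_right (R_norm (hB i) (hkk i).le) (norm_nonneg _)
        _ = ‖x n - θ‖ := one_mul _
    rw [dist_eq_norm] at h1
    rw [h3]
    refine lt_of_le_of_lt (norm_sub_le _ _) ?_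
    linarith
  have hVtop : V = ⊤ := by
    have : CompleteSpace V := hVc.completeSpace_coe
    rw [← Submodule.orthogonal_eq_bot_iff, eq_bot_iff]
    intro θ hθ
    rw [← hLbot, hLmem]
    intro y hy
    -- the vectors `y* a ξ` are in `V`
    have h1 : ∀ ξ : H, (star y) ((star w) (w ξ)) ∈ V := by
      intro ξ
      rw [hVmem]
      rw [tendsto_zero_iff_norm_tendsto_zero]
      have hup : ∀ᶠ i in l, ‖R (B i) (kk i) ((star y) ((star w) (w ξ)))‖ ≤
          Real.sqrt (‖w ξ‖ ^ 2 / (4 * kk i)) := by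
        filter_upwards [eventually_ge_atTop (({⟨star y, star_mem hy⟩} : Finset N), 0)] with i hi
        apply Real.le_sqrt_of_sq_le
        have hmem : (⟨star y, star_mem hy⟩ : N) ∈ i.1 := hi.1 (Finset.mem_singleton_self _)
        exact est N w i.1 ⟨star y, star_mem hy⟩ hmem (kk i) (hkk i) ξ
      have hlim : Tendsto (fun i : ι => Real.sqrt (‖w ξ‖ ^ 2 / (4 * kk i))) l (nhds 0) := by
        have h2 : Tendsto (fun i : ι => ‖w ξ‖ ^ 2 / (4 * kk i)) l (nhds 0) := by
          have h3 : Tendsto (fun n : ℕ => ‖w ξ‖ ^ 2 / (4 * ((n : ℝ) + 1))) atTop (nhds 0) := by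
            have h4 : Tendsto (fun n : ℕ => 4 * ((n : ℝ) + 1)) atTop atTop := by
              apply Tendsto.const_mul_atTop (by norm_num)
              exact tendsto_atTop_add_const_right _ _ tendsto_natCast_atTop_atTop
            exact Tendsto.div_atTop tendsto_const_nhds h4
          have h5 : Tendsto (fun i : ι => i.2) l atTop := by
            show Tendsto Prod.snd (atTop : Filter (Finset N × ℕ)) atTop
            rw [← prod_atTop_atTop_eq]
            exact tendsto_snd
          exact h3.comp h5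
        have h6 := h2.sqrt
        rwa [Real.sqrt_zero] at h6
      exact tendsto_of_tendsto_of_tendsto_of_le_of_le' tendsto_const_nhds hlim
        (Eventually.of_forall fun i => norm_nonneg _) hup
    have h2 : ∀ ξ : H, ⟪(star y) ((star w) (w ξ)), θ⟫_ℂ = 0 := fun ξ =>
      (Submodule.mem_orthogonal V θ).mp hθ _ (h1 ξ)
    have h3 := h2 (y θ)
    rw [ContinuousLinearMap.star_eq_adjoint, ContinuousLinearMap.star_eq_adjoint,
      ContinuousLinearMap.adjoint_inner_left, ContinuousLinearMap.adjoint_inner_left,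
      inner_self_eq_zero] at h3
    exact h3
  -- the expectation of `1 - R` vanishes
  have hEmono : ∀ x ∈ M, ∀ y ∈ M, x ≤ y → E x ≤ E y := by
    intro x hx y hy hxy
    have h1 := hE.pos (y - x) (sub_mem hy hx) (sub_nonneg.mpr hxy)
    have h2 := hE.add x hx (y - x) (sub_mem hy hx)
    rw [add_sub_cancel] at h2
    rw [h2]
    exact le_add_of_nonneg_right h1
  have hEsum : ∀ F : Finset N, E (bF N w F) = 0 ∧ bF N w F ∈ M := by
    intro F
    induction F using Finset.induction_on with
    | empty =>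
      unfold bF
      rw [Finset.sum_empty]
      refine ⟨?_, zero_mem M⟩
      have := hE.smul 0 0 (zero_mem M)
      simpa using this
    | insert y F hyF ih =>
      have h1 : bF N w (insert y F) = (y : H →L[ℂ] H) * (star w * w) * star (y : H →L[ℂ] H) +
          bF N w F := by
        unfold bF
        rw [Finset.sum_insert hyF]
      have hyM : (y : H →L[ℂ] H) * (star w * w) * star (y : H →L[ℂ] H) ∈ M :=
        mul_mem (mul_mem (hE.sub _ y.2) haM) (star_mem (hE.sub _ y.2))
      rw [h1]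
      refine ⟨?_, add_mem hyM ih.2⟩
      rw [hE.add _ hyM _ ih.2, ih.1, hE.bim _ y.2 _ (star_mem y.2) _ haM, hw]
      simp
  have hRM : ∀ i, R (B i) (kk i) ∈ M := fun i => R_mem M (hB i) (hBM i)
  have hE0 : ∀ i, E (1 - R (B i) (kk i)) = 0 := by
    intro i
    apply le_antisymm
    · have h1 := hEmono _ (sub_mem (one_mem M) (hRM i)) (((kk i : ℝ) : ℂ) • B i)
        (M.toStarSubalgebra.smul_mem (hBM i) _)
        (by
          have := one_sub_R_le (hB i) (hkk i).le
          rwa [← Complex.coe_smul] at this)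
      rw [hE.smul _ _ (hBM i), (hEsum i.1).1, smul_zero] at h1
      exact h1
    · exact hE.pos _ (sub_mem (one_mem M) (hRM i)) (sub_nonneg.mpr (R_le_one (hB i) (hkk i).le))
  -- normality
  have hnorm : ∀ i, ‖1 - R (B i) (kk i)‖ ≤ 1 := by
    intro i
    have h0 : 0 ≤ 1 - R (B i) (kk i) := sub_nonneg.mpr (R_le_one (hB i) (hkk i).le)
    rw [CStarAlgebra.norm_le_one_iff_of_nonneg _ h0]
    exact sub_le_self _ (R_nonneg (hB i) (hkk i).le)
  have hlne : l.NeBot := by
    show (atTop : Filter (Finset N × ℕ)).NeBot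
    infer_instance
  have hlimit := hE.normal ι l (fun i => 1 - R (B i) (kk i)) 1
    (fun i => sub_mem (one_mem M) (hRM i)) (one_mem M) ⟨1, hnorm⟩
    (by
      intro ξ η
      have hξ : Tendsto (fun i => R (B i) (kk i) ξ) l (nhds 0) := by
        rw [← hVmem, hVtop]
        exact Submodule.mem_top
      have h1 : Tendsto (fun i => ⟪η, ξ - R (B i) (kk i) ξ⟫_ℂ) l (nhds ⟪η, ξ - 0⟫_ℂ) :=
        Tendsto.inner tendsto_const_nhds (tendsto_const_nhds.sub hξ)
      simpa using h1)
  apply hw0
  ext x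
  have h1 := hlimit (w x) (w x)
  simp only [hE0, hE.one, zero_apply, inner_zero_right,
    one_apply_eq_self] at h1
  have h2 := tendsto_nhds_unique h1 tendsto_const_nhds
  have h3 : w x = 0 := inner_self_eq_zero.mp h2
  rw [h3]
  rfl

theorem t_faithful : W_faithful := by
  intro H _ _ _ N M E hE hirr w hwM hw
  exact main N M E hE hirr w hwM hw

end Pool.Agent.Y801.WQ.Faith
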